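import Pool.Agent.Lib.MP_b374f8_co.Count

/-!
The Baxter-Shattuck conjecture: permutations avoiding the vincular pattern `23-1-4`
are counted by the powered Catalan numbers.
-/

namespace Pool.Agent.Results.MP_b374f8_co.BaxterShattuck

/-- `π` contains the vincular pattern `23-1-4`: there are positions `i < i + 1 < j < k`
with `π j < π i < π (i + 1) < π k`. -/
def Contains {n : ℕ} (π : Equiv.Perm (Fin n)) : Prop :=
  ∃ i i' j k : Fin n, (i' : ℕ) = i + 1 ∧ i' < j ∧ j < k ∧ π j < π i ∧ π i < π i' ∧ π i' < π k

/-- Labels of the children of a vertex labelled `k`: one `1`, `i` copies of `i` for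
`2 ≤ i ≤ k`, and one `k + 1`. -/
def children (k : ℕ) : Multiset ℕ :=
  {1} + (∑ i ∈ Finset.Icc 2 k, Multiset.replicate i i) + {k + 1}

/-- The multiset of the labels of all vertices at level `n` of the tree
(the root, labelled `1`, is at level `1`; there is no level `0`). -/
def level : ℕ → Multiset ℕ
  | 0 => 0
  | 1 => {1}
  | n + 2 => (level (n + 1)).bind children

/-- The powered Catalan number: the number of vertices at level `n`. -/
def p (n : ℕ) : ℕ := Multiset.card (level n)

example : p 1 = 1 ∧ p 2 = 2 ∧ p 3 = 6 ∧ p 4 = 23 := by decide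

open PowerSeries Pool.Agent.Lib.MP_b374f8_co

lemma pos_of_mem_children {k i : ℕ} (h : i ∈ children k) : 0 < i := by
  simp only [children, Multiset.mem_add, Multiset.mem_singleton, Multiset.mem_sum,
    Multiset.mem_replicate, Finset.mem_Icc] at h
  rcases h with (rfl | ⟨j, hj, -, rfl⟩) | rfl <;> omega

lemma pos_of_mem_level {n i : ℕ} (h : i ∈ level (n + 1)) : 0 < i := by
  cases n with
  | zero =>
    simp only [level, Multiset.mem_singleton] at h
    omega
  | succ n =>
    simp only [level, Multiset.mem_bind] at h
    obtain ⟨k, -, hk⟩ := h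
    exact pos_of_mem_children hk

lemma sum_children (f : ℤ⟦X⟧) {k : ℕ} (hk : 0 < k) :
    ((children k).map (fun i => coeff i f)).sum = coeff k (step f) := by
  rw [step, map_add, coeff_del, coeff_sh]
  simp only [children, Multiset.map_add, Multiset.sum_add, Multiset.map_singleton,
    Multiset.sum_singleton, add_left_inj]
  obtain ⟨k, rfl⟩ : ∃ m, k = m + 1 := ⟨k - 1, by omega⟩
  clear hk
  induction k with
  | zero => simp [Finset.sum_range_succ]
  | succ k ih =>
    rw [Finset.sum_range_succ, ← ih, Finset.sum_Icc_succ_top (by omega)]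
    simp only [Multiset.map_add, Multiset.sum_add, Multiset.map_replicate,
      Multiset.sum_replicate, nsmul_eq_mul]
    ring

lemma sum_level (n : ℕ) (f : ℤ⟦X⟧) :
    ((level (n + 1)).map (fun i => coeff i f)).sum = coeff 1 (step^[n] f) := by
  induction n generalizing f with
  | zero => simp [level]
  | succ n ih =>
    rw [level, Multiset.map_bind, Multiset.sum_bind, Function.iterate_succ_apply, ← ih]
    congr 1
    exact Multiset.map_congr rfl fun k hk => sum_children f (pos_of_mem_level hk)

lemma p_eq (n : ℕ) : (p (n + 1) : ℤ) = constantCoeff (step^[n + 1] (X * geo + 1)) := by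
  rw [Function.iterate_succ_apply', step, map_add, constantCoeff_del, zero_add,
    ← coeff_zero_eq_constantCoeff_apply, coeff_sh, zero_add, ← sum_level]
  have : (level (n + 1)).map (fun i => coeff i (X * geo + 1 : ℤ⟦X⟧))
      = (level (n + 1)).map (fun _ => (1 : ℤ)) := by
    refine Multiset.map_congr rfl fun k hk => ?_
    obtain ⟨m, rfl⟩ : ∃ m, k = m + 1 := ⟨k - 1, by have := pos_of_mem_level hk; omega⟩
    simp [coeff_succ_X_mul, geo, coeff_one]
  rw [this]
  simp [p]

/-- For every `n ≥ 1` the number of permutations of `n` letters avoiding `23-1-4` is `p n`. -/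
theorem result (n : ℕ) (hn : 1 ≤ n) :
    Nat.card {π : Equiv.Perm (Fin n) // ¬ Contains π} = p n := by
  obtain ⟨m, rfl⟩ : ∃ m, n = m + 1 := ⟨n - 1, by omega⟩
  have h1 := card_avoid (m + 1)
  have h2 := card_closed_V (m + 1)
  rw [← p_eq, ← h1] at h2
  exact_mod_cast h2

end Pool.Agent.Results.MP_b374f8_co.BaxterShattuck
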