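import Pool.Agent.Lib.MP_b374f8_co.Ref.Bridge

/-!
A statistic-preserving bijection between permutations avoiding the vincular pattern `23-1-4`
and inversion sequences avoiding `110`.
-/

namespace Pool.Agent.Results.MP_b374f8_co.ThreeStatistics

open Finset

/-- `π` contains the vincular pattern `23-1-4`: there are positions `i < i + 1 < j < k`
with `π j < π i < π (i + 1) < π k`. -/
def Contains {n : ℕ} (π : Equiv.Perm (Fin n)) : Prop :=
  ∃ i i' j k : Fin n, (i' : ℕ) = i + 1 ∧ i' < j ∧ j < k ∧ π j < π i ∧ π i < π i' ∧ π i' < π k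

/-- Inversion sequences, positions and values counted from `0`. -/
def IsInv {n : ℕ} (e : Fin n → ℕ) : Prop := ∀ i : Fin n, e i ≤ (i : ℕ)

/-- `e` contains the pattern `110`. -/
def Has110 {n : ℕ} (e : Fin n → ℕ) : Prop :=
  ∃ i j k : Fin n, i < j ∧ j < k ∧ e i = e j ∧ e k < e i

/-- Number of left-to-right minima of a permutation. -/
def lmin {n : ℕ} (π : Equiv.Perm (Fin n)) : ℕ :=
  (univ.filter fun i : Fin n => ∀ j, j < i → π i < π j).card

/-- Number of right-to-left maxima of a permutation. -/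
def rmax {n : ℕ} (π : Equiv.Perm (Fin n)) : ℕ :=
  (univ.filter fun i : Fin n => ∀ j, i < j → π j < π i).card

/-- The set of ascent tops of a permutation (values counted from `0`). -/
def ascTops {n : ℕ} (π : Equiv.Perm (Fin n)) : Set ℕ :=
  {v | ∃ i i' : Fin n, (i' : ℕ) = i + 1 ∧ π i < π i' ∧ (π i' : ℕ) = v}

/-- Number of entries of a sequence that equal their position. -/
def maxs {n : ℕ} (e : Fin n → ℕ) : ℕ := (univ.filter fun i : Fin n => e i = (i : ℕ)).card

/-- Number of strict right-to-left minima of a sequence. -/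
def rmin {n : ℕ} (e : Fin n → ℕ) : ℕ :=
  (univ.filter fun i : Fin n => ∀ j, i < j → e i < e j).card

/-- The set of values below `n` that a sequence of length `n` does not take. -/
def missing {n : ℕ} (e : Fin n → ℕ) : Set ℕ := {v | v < n ∧ ∀ i, e i ≠ v}

open Pool.Agent.Lib.MP_b374f8_co Pool.Agent.Lib.MP_b374f8_co.Ref

lemma mem_II_iff {m : ℕ} (e : Fin (m + 1) → ℕ) : List.ofFn e ∈ II m ↔ IsInv e ∧ ¬ Has110 e := by
  rw [mem_II, Iv_ofFn, A110_ofFn, List.length_ofFn, IsInv, Has110]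
  constructor
  · rintro ⟨-, h1, h2⟩
    exact ⟨h1, fun ⟨i, j, k, hij, hjk, h⟩ => h2 i j k hij hjk h⟩
  · rintro ⟨h1, h2⟩
    exact ⟨rfl, h1, fun i j k hij hjk h => h2 ⟨i, j, k, hij, hjk, h⟩⟩

lemma lmL_word {n : ℕ} (π : Equiv.Perm (Fin n)) : lmL (word π) = lmin π := by
  rw [word, lmL_ofFn, lmin]
  simp only [Nat.add_lt_add_iff_right, Fin.val_fin_lt]

lemma rxL_word {n : ℕ} (π : Equiv.Perm (Fin n)) : rxL (word π) = rmax π := by
  rw [word, rxL_ofFn, rmax]
  simp only [Nat.add_lt_add_iff_right, Fin.val_fin_lt]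

lemma tpM_word {n : ℕ} (π : Equiv.Perm (Fin n)) (v : ℕ) :
    v + 1 ∈ tpM (word π) ↔ v ∈ ascTops π := by
  rw [word, mem_tpM]
  simp only [Nat.add_lt_add_iff_right, Fin.val_fin_lt, Nat.add_right_cancel_iff]
  rfl

/-- For every `n ≥ 1` there is a bijection from the `23-1-4`-avoiding permutations of `n` letters
onto the `110`-avoiding inversion sequences of length `n` that carries left-to-right minima to
maximal entries, right-to-left maxima to right-to-left minima, and the set of ascent tops to the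
set of missing values. -/
theorem result (n : ℕ) (hn : 1 ≤ n) :
    ∃ φ : {π : Equiv.Perm (Fin n) // ¬ Contains π} ≃ {e : Fin n → ℕ // IsInv e ∧ ¬ Has110 e},
      ∀ π, maxs (φ π).1 = lmin π.1 ∧ rmin (φ π).1 = rmax π.1 ∧ missing (φ π).1 = ascTops π.1 := by
  obtain ⟨m, rfl⟩ : ∃ m, n = m + 1 := ⟨n - 1, by omega⟩
  obtain ⟨φ, hφ⟩ := exists_bij m
  refine ⟨(Equiv.subtypeEquivRight fun π => (Av_word π).symm).trans
    (φ.trans (Equiv.subtypeEquivRight mem_II_iff)), fun π => ?_⟩
  have h := hφ ⟨π.1, (Av_word π.1).2 π.2⟩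
  simp only [Prod.mk.injEq] at h
  obtain ⟨h1, h2, h3⟩ := h
  rw [mx_ofFn, lmL_word] at h1
  rw [rmL_ofFn, rxL_word] at h2
  refine ⟨h1, h2, Set.ext fun v => ?_⟩
  have h4 := mem_msM (φ ⟨π.1, (Av_word π.1).2 π.2⟩).1 v
  rw [h3, tpM_word] at h4
  exact h4.symm

end Pool.Agent.Results.MP_b374f8_co.ThreeStatistics
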